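import Mathlib
import Pool.Agent.Helper61.FR.St.P2

/-!
# Renyi entropy: two points at distance `d / 2 ^ (q + 2)` are not both good

A point is good at level `q` for a set `S` of cells of length `2 ^ (- (q + 4))` if at least three
quarters of the points `3 ^ b * x`, `b < 2 ^ q`, lie in cells of `S`.  `Few q` is the set of the
points which are good for some `S` with `2 * card S ^ 2 < 2 ^ q`.
-/

set_option autoImplicit false

open Finset

namespace Helper75.RE

/-- the index of the cell `[i / 2 ^ W, (i + 1) / 2 ^ W)` which contains `x` modulo `1` -/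
noncomputable def cell (W : ℕ) (x : ℝ) : ℕ := ⌊(2 : ℝ) ^ W * Int.fract x⌋₊

theorem cell_fract (W : ℕ) (x : ℝ) : cell W (Int.fract x) = cell W x := by
  unfold cell
  rw [Int.fract_fract]

theorem cell_mul_fract (W k : ℕ) (x : ℝ) : cell W (3 ^ k * Int.fract x) = cell W (3 ^ k * x) := by
  unfold cell
  have h1 : (3 : ℝ) ^ k * Int.fract x = 3 ^ k * x - ((3 ^ k * ⌊x⌋ : ℤ) : ℝ) := by
    have := Int.floor_add_fract x
    push_cast
    linear_combination (3 : ℝ) ^ k * this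
  rw [h1, Int.fract_sub_intCast]

/-- two points in the same cell -/
theorem close_of_cell {W : ℕ} {x y : ℝ} (h : cell W x = cell W y) :
    ∃ z : ℤ, |x - y - z| * 2 ^ W < 1 := by
  refine ⟨⌊x⌋ - ⌊y⌋, ?_⟩
  have h2 : (0 : ℝ) < 2 ^ W := by positivity
  have e1 : x - y - ((⌊x⌋ - ⌊y⌋ : ℤ) : ℝ) = Int.fract x - Int.fract y := by
    have a1 := Int.floor_add_fract x
    have a2 := Int.floor_add_fract y
    push_cast
    linarith
  rw [e1]
  have f1 := Nat.floor_le (mul_nonneg h2.le (Int.fract_nonneg x))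
  have f2 := Nat.floor_le (mul_nonneg h2.le (Int.fract_nonneg y))
  have g1 := Nat.lt_floor_add_one ((2 : ℝ) ^ W * Int.fract x)
  have g2 := Nat.lt_floor_add_one ((2 : ℝ) ^ W * Int.fract y)
  have h' : (⌊(2 : ℝ) ^ W * Int.fract x⌋₊ : ℝ) = ⌊(2 : ℝ) ^ W * Int.fract y⌋₊ :=
    congrArg (fun n : ℕ => (n : ℝ)) h
  rw [h'] at f1 g1
  have e2 : |Int.fract x - Int.fract y| * 2 ^ W = |(Int.fract x - Int.fract y) * 2 ^ W| := by
    rw [abs_mul, abs_of_pos h2]
  rw [e2, abs_lt]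
  constructor <;> nlinarith

/-- the number of the points `3 ^ b * x`, `b < 2 ^ q`, in cells of `S` -/
noncomputable def num (q : ℕ) (S : Finset ℕ) (x : ℝ) : ℕ :=
  ((range (2 ^ q)).filter fun b => cell (q + 4) (3 ^ b * x) ∈ S).card

/-- the good points -/
def Good (q : ℕ) (S : Finset ℕ) : Set ℝ := {x | 3 * 2 ^ q ≤ 4 * num q S x}

/-- the points for which few cells contain three quarters of the orbit -/
def Few (q : ℕ) : Set ℝ := {x | ∃ S : Finset ℕ, 2 * S.card ^ 2 < 2 ^ q ∧ x ∈ Good q S}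

theorem good_fract (q : ℕ) (S : Finset ℕ) (x : ℝ) :
    Int.fract x ∈ Good q S ↔ x ∈ Good q S := by
  unfold Good num
  simp only [Set.mem_ofPred_eq, cell_mul_fract]

theorem few_fract (q : ℕ) (x : ℝ) : Int.fract x ∈ Few q ↔ x ∈ Few q := by
  unfold Few
  simp only [Set.mem_ofPred_eq, good_fract]

theorem good_excl (q : ℕ) (hq : 1 ≤ q) (S S' : Finset ℕ) (hS : 2 * S.card ^ 2 < 2 ^ q)
    (hS' : 2 * S'.card ^ 2 < 2 ^ q)
    (d : ℤ) (τ x : ℝ) (hd : Odd d) (hτ : |τ| * 3 ^ (2 ^ q) * 2 ^ (q + 2) ≤ 1)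
    (hx : x ∈ Good q S) (hx' : x + d / 2 ^ (q + 2) + τ ∈ Good q S') : False := by
  classical
  obtain ⟨x', hxx⟩ : ∃ x', x' = x + d / 2 ^ (q + 2) + τ := ⟨_, rfl⟩
  rw [← hxx] at hx'
  obtain ⟨B1, hB1⟩ : ∃ B1, B1 = (range (2 ^ q)).filter fun b => cell (q + 4) (3 ^ b * x) ∈ S :=
    ⟨_, rfl⟩
  obtain ⟨B2, hB2⟩ : ∃ B2, B2 = (range (2 ^ q)).filter fun b => cell (q + 4) (3 ^ b * x') ∈ S' :=
    ⟨_, rfl⟩
  have h1 : 3 * 2 ^ q ≤ 4 * B1.card := by
    have : 3 * 2 ^ q ≤ 4 * num q S x := hx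
    unfold num at this
    rw [hB1]
    convert this
  have h2 : 3 * 2 ^ q ≤ 4 * B2.card := by
    have : 3 * 2 ^ q ≤ 4 * num q S' x' := hx'
    unfold num at this
    rw [hB2]
    convert this
  have h3 : (B1 ∪ B2).card ≤ 2 ^ q := by
    have : B1 ∪ B2 ⊆ range (2 ^ q) := by
      rw [hB1, hB2]
      exact Finset.union_subset (Finset.filter_subset _ _) (Finset.filter_subset _ _)
    simpa using Finset.card_le_card this
  have h4 := Finset.card_union_add_card_inter B1 B2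
  have h5 : (S ×ˢ S').card < (B1 ∩ B2).card := by
    rw [Finset.card_product]
    have h6 : 2 * (S.card * S'.card) < 2 ^ q := by
      rcases le_total S.card S'.card with h | h
      · calc 2 * (S.card * S'.card) ≤ 2 * (S'.card * S'.card) := by gcongr
          _ = 2 * S'.card ^ 2 := by ring
          _ < 2 ^ q := hS'
      · calc 2 * (S.card * S'.card) ≤ 2 * (S.card * S.card) := by gcongr
          _ = 2 * S.card ^ 2 := by ring
          _ < 2 ^ q := hS
    omega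
  obtain ⟨b, hb, b', hb', hne, heq⟩ := Finset.exists_ne_map_eq_of_card_lt_of_maps_to h5
    (f := fun b => (cell (q + 4) (3 ^ b * x), cell (q + 4) (3 ^ b * x'))) (by
      intro b hb
      rw [Finset.mem_coe, Finset.mem_inter, hB1, hB2, Finset.mem_filter, Finset.mem_filter] at hb
      exact Finset.mem_coe.2 (Finset.mem_product.2 ⟨hb.1.2, hb.2.2⟩))
  have key : ∀ b b' : ℕ, b < 2 ^ q → b' < 2 ^ q → b < b' →
      cell (q + 4) (3 ^ b * x) = cell (q + 4) (3 ^ b' * x) →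
      cell (q + 4) (3 ^ b * x') = cell (q + 4) (3 ^ b' * x') → False := by
    intro b b' hb hb' hlt e1 e2
    obtain ⟨z1, hz1⟩ := close_of_cell e1
    obtain ⟨z2, hz2⟩ := close_of_cell e2
    have hp : (0 : ℝ) < 2 ^ (q + 2) := by positivity
    have hp4 : (2 : ℝ) ^ (q + 4) = 4 * 2 ^ (q + 2) := by ring
    rw [hp4] at hz1 hz2
    -- the integer
    have hint : |(((3 ^ b - 3 ^ b') * d - (z2 - z1) * 2 ^ (q + 2) : ℤ) : ℝ)| < 1 := by
      have e3 : (((3 ^ b - 3 ^ b') * d - (z2 - z1) * 2 ^ (q + 2) : ℤ) : ℝ) =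
          ((3 ^ b * x' - 3 ^ b' * x' - z2) - (3 ^ b * x - 3 ^ b' * x - z1)
            - (3 ^ b - 3 ^ b') * τ) * 2 ^ (q + 2) := by
        rw [hxx]
        push_cast
        field_simp
        ring
      rw [e3, abs_mul, abs_of_pos hp]
      have t1 : |(3 ^ b - 3 ^ b' : ℝ) * τ| * 2 ^ (q + 2) ≤ 1 / 3 := by
        have a1 : |(3 ^ b - 3 ^ b' : ℝ)| ≤ 3 ^ (2 ^ q) / 3 := by
          have c1 : (3 : ℝ) ^ b' ≤ 3 ^ (2 ^ q) / 3 := by
            have c2 : (3 : ℝ) ^ (b' + 1) ≤ 3 ^ (2 ^ q) :=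
              pow_le_pow_right₀ (by norm_num) (by omega)
            rw [pow_succ] at c2
            linarith
          have c3 : (0 : ℝ) ≤ 3 ^ b := by positivity
          have c4 : (3 : ℝ) ^ b ≤ 3 ^ b' := pow_le_pow_right₀ (by norm_num) hlt.le
          rw [abs_le]
          constructor <;> linarith
        rw [abs_mul]
        have c5 : 0 ≤ |τ| * 2 ^ (q + 2) := by positivity
        nlinarith
      have t2 : |(3 ^ b * x' - 3 ^ b' * x' - z2) - (3 ^ b * x - 3 ^ b' * x - z1)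
            - (3 ^ b - 3 ^ b') * τ| ≤ |3 ^ b * x' - 3 ^ b' * x' - z2| +
            |3 ^ b * x - 3 ^ b' * x - z1| + |(3 ^ b - 3 ^ b' : ℝ) * τ| := by
        refine (abs_sub _ _).trans ?_
        gcongr
        exact abs_sub _ _
      nlinarith
    have hzero : (3 ^ b - 3 ^ b') * d - (z2 - z1) * 2 ^ (q + 2) = 0 := by
      rw [← Int.abs_lt_one_iff]
      exact_mod_cast hint
    have hdvd : (2 : ℤ) ^ (q + 2) ∣ (3 ^ b' - 3 ^ b) * d := ⟨-(z2 - z1), by linarith⟩
    have hcop : IsCoprime ((2 : ℤ) ^ (q + 2)) d := by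
      apply IsCoprime.pow_left
      obtain ⟨k, hk⟩ := hd
      exact ⟨-k, 1, by rw [hk]; ring⟩
    have hdvd2 : (2 : ℤ) ^ (q + 2) ∣ 3 ^ b' - 3 ^ b := hcop.dvd_of_dvd_mul_right hdvd
    have e4 : (3 : ℤ) ^ b' - 3 ^ b = 3 ^ b * (3 ^ (b' - b) - 1) := by
      rw [mul_sub, mul_one, ← pow_add]
      congr 2
      omega
    rw [e4] at hdvd2
    have hcop3 : IsCoprime ((2 : ℤ) ^ (q + 2)) (3 ^ b) :=
      IsCoprime.pow ⟨-1, 1, by norm_num⟩
    have hdvd3 : (2 : ℤ) ^ (q + 2) ∣ 3 ^ (b' - b) - 1 := hcop3.dvd_of_dvd_mul_left hdvd2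
    have hdvd4 : 2 ^ (q + 2) ∣ 3 ^ (b' - b) - 1 := by
      have h1 : 1 ≤ 3 ^ (b' - b) := Nat.one_le_pow _ _ (by norm_num)
      zify [h1]
      exact_mod_cast hdvd3
    have h6 := (Pool.Agent.Helper61.FR.P2.two_pow_dvd_three_pow_sub_one (q + 2) _
      (by omega)).1 hdvd4
    have h7 : 2 ^ q ∣ b' - b := by simpa using h6
    have h8 := Nat.le_of_dvd (by omega) h7
    omega
  have hbm : b < 2 ^ q := by
    rw [Finset.mem_inter, hB1, Finset.mem_filter, Finset.mem_range] at hb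
    exact hb.1.1
  have hbm' : b' < 2 ^ q := by
    rw [Finset.mem_inter, hB1, Finset.mem_filter, Finset.mem_range] at hb'
    exact hb'.1.1
  have e1 := congrArg Prod.fst heq
  have e2 := congrArg Prod.snd heq
  simp only at e1 e2
  rcases lt_or_gt_of_ne hne with h | h
  · exact key b b' hbm hbm' h e1 e2
  · exact key b' b hbm' hbm h e1.symm e2.symm

theorem few_excl (q : ℕ) (hq : 1 ≤ q)
    (d : ℤ) (τ x : ℝ) (hd : Odd d) (hτ : |τ| * 3 ^ (2 ^ q) * 2 ^ (q + 2) ≤ 1)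
    (hx : x ∈ Few q) (hx' : x + d / 2 ^ (q + 2) + τ ∈ Few q) : False := by
  obtain ⟨S, hS, hx⟩ := hx
  obtain ⟨S', hS', hx'⟩ := hx'
  exact good_excl q hq S S' hS hS' d τ x hd hτ hx hx'

end Helper75.RE
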