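import Mathlib
import Pool.Agent.Helper75.RE.Stage
import Pool.Agent.Helper75.RE.Excl

/-!
# Renyi entropy: the complexity of orbits

Let `μ` be a measure invariant under `x ↦ 2 x` and `x ↦ 3 x`.  If the sum over `q ≥ q₀` of
`2 ^ q` times the measure of the complement of `Few q` is at most `1 / 24`, then arcs of arbitrarily
small length have mass at least `(3 / 4) / 3 ^ (2 ^ q₀)`.
-/

set_option autoImplicit false

open MeasureTheory Finset Filter

namespace Helper75.RE

open Pool.Agent.Helper61.FR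

theorem measurable_cell (W : ℕ) : Measurable (cell W) := by
  unfold cell
  exact Nat.measurable_floor.comp (measurable_const.mul measurable_fract)

theorem measurable_num (q : ℕ) (S : Finset ℕ) : Measurable (num q S) := by
  have h1 : num q S = fun x => ∑ b ∈ range (2 ^ q), if cell (q + 4) (3 ^ b * x) ∈ S then 1 else 0 := by
    funext x
    unfold num
    rw [Finset.card_filter]
  rw [h1]
  refine Finset.measurable_sum _ fun b _ => ?_
  refine Measurable.ite ?_ measurable_const measurable_const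
  exact ((measurable_cell (q + 4)).comp (measurable_const.mul measurable_id))
    (MeasurableSet.of_discrete (s := {i | i ∈ S}))

theorem measurableSet_good (q : ℕ) (S : Finset ℕ) : MeasurableSet (Good q S) :=
  measurableSet_le measurable_const ((measurable_num q S).const_mul 4)

theorem measurableSet_few (q : ℕ) : MeasurableSet (Few q) := by
  have h1 : Few q = ⋃ S : Finset ℕ, ⋃ (_ : 2 * S.card ^ 2 < 2 ^ q), Good q S := by
    ext x
    simp only [Few, Set.mem_ofPred_eq, Set.mem_iUnion, exists_prop]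
  rw [h1]
  exact MeasurableSet.iUnion fun S => MeasurableSet.iUnion fun _ => measurableSet_good q S

/-- The union bound over all scales. -/
theorem union_bound {μ : Measure ℝ} (h : Inv23 μ) (G : ℕ → Set ℝ)
    (hG : ∀ q, MeasurableSet (G q)) (q₀ : ℕ)
    (hs : ∀ Q, ∑ q ∈ Ico q₀ Q, (2 : ℝ) ^ q * μ.real (G q)ᶜ ≤ 1 / 24) (n : ℕ) :
    3 / 4 ≤ μ.real {x | ∀ q, q₀ ≤ q → ∀ i, i ≤ n → i ≤ 5 * 2 ^ q →
        Int.fract (2 ^ (n - i) * x) ∈ G q} := by
  have := h.prob
  obtain ⟨E, hE⟩ : ∃ E, E = {x : ℝ | ∀ q, q₀ ≤ q → ∀ i, i ≤ n → i ≤ 5 * 2 ^ q →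
    Int.fract (2 ^ (n - i) * x) ∈ G q} := ⟨_, rfl⟩
  rw [← hE]
  have hEm : MeasurableSet E := by
    have h1 : E = ⋂ q : ℕ, ⋂ (_ : q₀ ≤ q), ⋂ i : ℕ, ⋂ (_ : i ≤ n), ⋂ (_ : i ≤ 5 * 2 ^ q),
        (fun x : ℝ => Int.fract (2 ^ (n - i) * x)) ⁻¹' G q := by
      rw [hE]
      ext x
      simp only [Set.mem_ofPred_eq, Set.mem_iInter, Set.mem_preimage]
    rw [h1]
    refine MeasurableSet.iInter fun q => MeasurableSet.iInter fun _ => MeasurableSet.iInter fun i =>
      MeasurableSet.iInter fun _ => MeasurableSet.iInter fun _ => ?_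
    exact (preserving_two_pow h (n - i)).measurable (hG q)
  have h1 : Eᶜ ⊆ ⋃ p : ℕ, ⋃ i ∈ range (5 * 2 ^ (q₀ + p) + 1),
      (fun x : ℝ => Int.fract (2 ^ (n - i) * x)) ⁻¹' (G (q₀ + p))ᶜ := by
    intro x hx
    rw [hE, Set.mem_compl_iff, Set.mem_ofPred_eq] at hx
    push Not at hx
    obtain ⟨q, hq, i, hi, hi', hx⟩ := hx
    rw [Set.mem_iUnion]
    refine ⟨q - q₀, ?_⟩
    rw [Set.mem_iUnion₂]
    have e1 : q₀ + (q - q₀) = q := by omega
    rw [e1]
    exact ⟨i, Finset.mem_range.2 (by omega), hx⟩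
  have h2 : μ Eᶜ ≤ ENNReal.ofReal (1 / 4) := by
    calc μ Eᶜ ≤ ∑' p : ℕ, μ (⋃ i ∈ range (5 * 2 ^ (q₀ + p) + 1),
          (fun x : ℝ => Int.fract (2 ^ (n - i) * x)) ⁻¹' (G (q₀ + p))ᶜ) :=
          (measure_mono h1).trans (measure_iUnion_le _)
      _ ≤ ∑' p : ℕ, ENNReal.ofReal (6 * ((2 : ℝ) ^ (q₀ + p) * μ.real (G (q₀ + p))ᶜ)) := by
          refine ENNReal.tsum_le_tsum fun p => ?_
          refine (measure_biUnion_finset_le _ _).trans ?_
          have h3 : ∀ i ∈ range (5 * 2 ^ (q₀ + p) + 1),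
              μ ((fun x : ℝ => Int.fract (2 ^ (n - i) * x)) ⁻¹' (G (q₀ + p))ᶜ) =
              μ (G (q₀ + p))ᶜ := fun i _ =>
            (preserving_two_pow h (n - i)).measure_preimage (hG _).compl.nullMeasurableSet
          rw [Finset.sum_congr rfl h3, Finset.sum_const, Finset.card_range, nsmul_eq_mul]
          rw [← ofReal_measureReal (measure_ne_top μ _),
            ← ENNReal.ofReal_natCast, ← ENNReal.ofReal_mul (by positivity)]
          apply ENNReal.ofReal_le_ofReal
          have h4 : (0 : ℝ) ≤ μ.real (G (q₀ + p))ᶜ := measureReal_nonneg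
          have h5 : (1 : ℝ) ≤ 2 ^ (q₀ + p) := one_le_pow₀ (by norm_num)
          push_cast
          nlinarith
      _ ≤ ENNReal.ofReal (1 / 4) := by
          refine ENNReal.tsum_le_of_sum_range_le fun P => ?_
          rw [← ENNReal.ofReal_sum_of_nonneg fun p _ => by
            have : (0 : ℝ) ≤ μ.real (G (q₀ + p))ᶜ := measureReal_nonneg
            positivity]
          apply ENNReal.ofReal_le_ofReal
          rw [← Finset.mul_sum]
          have h3 := hs (q₀ + P)
          rw [Finset.sum_Ico_eq_sum_range, Nat.add_sub_cancel_left] at h3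
          linarith
  have h3 : μ.real Eᶜ ≤ 1 / 4 := by
    rw [measureReal_def]
    have := ENNReal.toReal_mono ENNReal.ofReal_ne_top h2
    rwa [ENNReal.toReal_ofReal (by norm_num)] at this
  rw [probReal_compl_eq_one_sub hEm] at h3
  linarith

/-- The theorem on the complexity of orbits, on the line. -/
theorem arcs_of_few {μ : Measure ℝ} (h : Inv23 μ) (q₀ : ℕ) (hq₀ : 3 ≤ q₀)
    (hs : ∀ Q, ∑ q ∈ Ico q₀ Q, (2 : ℝ) ^ q * μ.real (Few q)ᶜ ≤ 1 / 24) :
    ∀ K : ℕ, ∃ y : ℝ, (3 / 4) / 3 ^ (2 ^ q₀) ≤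
      μ.real {x | ∃ z : ℤ, |x - y - z| ≤ (1 / 2) ^ K} :=
  stage3X h q₀ (fun q => q + 2)
    (fun q _ => by
      show 1 ≤ q + 2
      omega)
    (fun q hq => by
      show q + 2 ≤ 2 ^ q
      have : q - 1 < 2 ^ (q - 1) := Nat.lt_two_pow_self
      have e : 2 ^ q = 2 * 2 ^ (q - 1) := by
        rw [← pow_succ']
        congr 1
        omega
      omega)
    (fun q => Few q) (fun q x => few_fract q x)
    (fun q hq d τ x hd hτ hx hx' => few_excl q (by omega) d τ x hd hτ hx hx')
    (union_bound h (fun q => Few q) (fun q => measurableSet_few q) q₀ hs)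

end Helper75.RE
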