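import Mathlib
import Pool.Agent.Helper58.LU.Circle
import Pool.Agent.Helper75.RE.Cover

/-!
# Renyi entropy: dyadic arcs of the circle
-/

set_option autoImplicit false

open MeasureTheory Finset Filter

namespace Helper75.RE

open Pool.Agent.Helper61.FR

/-- the circle `ℝ / ℤ` -/
abbrev Tor := AddCircle (1 : ℝ)

/-- the arc `[i / 2 ^ W, (i + 1) / 2 ^ W)` of the circle -/
def arc (W i : ℕ) : Set Tor := (fun t : ℝ => (t : Tor)) '' Set.Ico ((i : ℝ) / 2 ^ W) ((i + 1) / 2 ^ W)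

/-- the index of the arc of length `2 ^ (-W)` -/
noncomputable def idx (W : ℕ) (x : Tor) : ℕ := ⌊(2 : ℝ) ^ W * (AddCircle.equivIco (1 : ℝ) 0 x : ℝ)⌋₊

theorem idx_coe (W : ℕ) (y : ℝ) : idx W (y : Tor) = cell W y := by
  unfold idx cell
  have := AddCircle.coe_equivIco_mk_apply (p := (1 : ℝ)) y
  rw [div_one, mul_one] at this
  rw [this]

theorem measurable_idx (W : ℕ) : Measurable (idx W) := by
  unfold idx
  refine Nat.measurable_floor.comp (measurable_const.mul ?_)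
  exact measurable_subtype_coe.comp (AddCircle.measurableEquivIco (1 : ℝ) 0).measurable

theorem cell_lt (W : ℕ) (x : ℝ) : cell W x < 2 ^ W := by
  unfold cell
  rw [Nat.floor_lt (mul_nonneg (by positivity) (Int.fract_nonneg _))]
  push_cast
  have := Int.fract_lt_one x
  have h2 : (0 : ℝ) < 2 ^ W := by positivity
  nlinarith

theorem idx_lt (W : ℕ) (x : Tor) : idx W x < 2 ^ W := by
  obtain ⟨y, rfl⟩ := QuotientAddGroup.mk_surjective x
  have := cell_lt W y
  rwa [← idx_coe] at this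

theorem cell_of_mem {W i : ℕ} {t : ℝ} (ht : t ∈ Set.Ico ((i : ℝ) / 2 ^ W) ((i + 1) / 2 ^ W)) :
    cell W t = i % 2 ^ W := by
  have h2 : (0 : ℝ) < 2 ^ W := by positivity
  obtain ⟨h3, h4⟩ := ht
  rw [div_le_iff₀ h2] at h3
  rw [lt_div_iff₀ h2] at h4
  have hdm := Nat.div_add_mod i (2 ^ W)
  obtain ⟨a, ha⟩ : ∃ a, a = i / 2 ^ W := ⟨_, rfl⟩
  obtain ⟨b, hb⟩ : ∃ b, b = i % 2 ^ W := ⟨_, rfl⟩
  have hblt : b < 2 ^ W := by rw [hb]; exact Nat.mod_lt _ (by positivity)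
  rw [← ha, ← hb] at hdm
  have hi : (i : ℝ) = 2 ^ W * a + b := by rw [← hdm]; push_cast; ring
  have hb1 : (b : ℝ) + 1 ≤ 2 ^ W := by exact_mod_cast hblt
  have hb0 : (0 : ℝ) ≤ b := Nat.cast_nonneg b
  have hfl : ⌊t⌋ = (a : ℤ) := by
    rw [Int.floor_eq_iff]
    push_cast
    constructor <;> nlinarith
  have hfr : Int.fract t = t - a := by
    rw [← Int.self_sub_floor, hfl]
    push_cast
    ring
  unfold cell
  rw [← hb, Nat.floor_eq_iff (mul_nonneg h2.le (Int.fract_nonneg t)), hfr]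
  constructor <;> nlinarith

theorem mem_arc_iff (W i : ℕ) (x : Tor) : x ∈ arc W i ↔ idx W x = i % 2 ^ W := by
  have h2 : (0 : ℝ) < 2 ^ W := by positivity
  constructor
  · rintro ⟨t, ht, rfl⟩
    show idx W (t : Tor) = _
    rw [idx_coe]
    exact cell_of_mem ht
  · intro h
    obtain ⟨y, rfl⟩ := QuotientAddGroup.mk_surjective x
    have h3 : cell W y = i % 2 ^ W := by
      rw [← idx_coe]
      exact h
    unfold cell at h3
    rw [Nat.floor_eq_iff (mul_nonneg h2.le (Int.fract_nonneg y))] at h3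
    obtain ⟨h4, h5⟩ := h3
    refine ⟨Int.fract y + ((i / 2 ^ W : ℕ) : ℝ), ?_, ?_⟩
    · have hdm := Nat.div_add_mod i (2 ^ W)
      have hi : (i : ℝ) = 2 ^ W * ((i / 2 ^ W : ℕ) : ℝ) + ((i % 2 ^ W : ℕ) : ℝ) := by
        exact_mod_cast hdm.symm
      constructor
      · rw [div_le_iff₀ h2]
        linarith
      · rw [lt_div_iff₀ h2]
        linarith
    · show ((Int.fract y + ((i / 2 ^ W : ℕ) : ℝ) : ℝ) : Tor) = (y : Tor)
      obtain ⟨n, hn⟩ : ∃ n : ℕ, n = i / 2 ^ W := ⟨_, rfl⟩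
      rw [← hn]
      have e1 : Int.fract y + (n : ℝ) = y + (((n : ℤ) - ⌊y⌋ : ℤ) : ℝ) := by
        have := Int.floor_add_fract y
        push_cast
        linarith
      have e2 : ((((n : ℤ) - ⌊y⌋ : ℤ) : ℝ) : Tor) = 0 :=
        (AddCircle.coe_eq_zero_iff 1).2 ⟨(n : ℤ) - ⌊y⌋, by simp⟩
      rw [e1, AddCircle.coe_add, e2, add_zero]

theorem arc_eq (W i : ℕ) : arc W i = idx W ⁻¹' {i % 2 ^ W} := by
  ext x
  exact mem_arc_iff W i x

theorem measurableSet_arc (W i : ℕ) : MeasurableSet (arc W i) := by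
  rw [arc_eq]
  exact measurable_idx W (measurableSet_singleton _)

theorem mem_biUnion_arc (W : ℕ) (S : Finset ℕ) (x : Tor) :
    x ∈ ⋃ i ∈ S, arc W i ↔ idx W x ∈ S.image fun i => i % 2 ^ W := by
  simp only [Set.mem_iUnion, mem_arc_iff, Finset.mem_image, exists_prop, eq_comm]

theorem measurableSet_arcs (W : ℕ) (S : Finset ℕ) : MeasurableSet (⋃ i ∈ S, arc W i) :=
  Finset.measurableSet_biUnion _ fun _ _ => measurableSet_arc _ _

/-- the points `x` such that fewer than `2 ^ ((q - 1) / 2)` arcs of length `2 ^ (-(q + 4))` contain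
three quarters of the points `3 ^ b x`, `b < 2 ^ q` -/
def few (q : ℕ) : Set Tor :=
  {x | ∃ S : Finset ℕ, 2 * S.card ^ 2 < 2 ^ q ∧
    3 * 2 ^ q ≤ 4 * {b : ℕ | b < 2 ^ q ∧ (3 ^ b : ℕ) • x ∈ ⋃ i ∈ S, arc (q + 4) i}.ncard}

theorem ncard_eq (q : ℕ) (P : ℕ → Prop) [DecidablePred P] :
    {b : ℕ | b < 2 ^ q ∧ P b}.ncard = ((range (2 ^ q)).filter P).card := by
  have h1 : {b : ℕ | b < 2 ^ q ∧ P b} = (((range (2 ^ q)).filter P : Finset ℕ) : Set ℕ) := by
    ext b
    simp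
  rw [h1, Set.ncard_coe_finset]

theorem few_sub (q : ℕ) (y : ℝ) (hy : (y : Tor) ∈ few q) : y ∈ Few q := by
  classical
  obtain ⟨S, hS, h⟩ := hy
  obtain ⟨S', hS'⟩ : ∃ S', S' = S.image fun i => i % 2 ^ (q + 4) := ⟨_, rfl⟩
  refine ⟨S', ?_, ?_⟩
  · have h4 : S'.card ≤ S.card := by
      rw [hS']
      exact Finset.card_image_le
    have h5 : S'.card ^ 2 ≤ S.card ^ 2 := Nat.pow_le_pow_left h4 2
    omega
  · show 3 * 2 ^ q ≤ 4 * num q S' y
    rw [ncard_eq] at h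
    refine h.trans (le_of_eq ?_)
    unfold num
    congr 2
    refine Finset.filter_congr fun b _ => ?_
    have e1 : (3 ^ b : ℕ) • (y : Tor) = ((3 ^ b * y : ℝ) : Tor) := by
      rw [← AddCircle.coe_nsmul, nsmul_eq_mul]
      push_cast
      rfl
    rw [e1, mem_biUnion_arc, idx_coe, ← hS']

/-- The theorem on the complexity of orbits, on the circle, with an explicit constant. -/
theorem atom_of_few {ν : Measure Tor} [IsProbabilityMeasure ν]
    (h2 : MeasurePreserving (fun x : Tor => (2 : ℕ) • x) ν ν)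
    (h3 : MeasurePreserving (fun x : Tor => (3 : ℕ) • x) ν ν) (q₀ : ℕ) (hq₀ : 3 ≤ q₀)
    (hs : ∀ Q, ∑ q ∈ Ico q₀ Q, (2 : ℝ) ^ q * ν.real (few q)ᶜ ≤ 1 / 24) :
    ∃ a : Tor, (3 / 4) / 3 ^ (2 ^ q₀) ≤ ν.real {a} := by
  obtain ⟨μ, hμ, hν, -⟩ := exists_inv23 ν h2 h3
  have hprob := hμ.prob
  refine Helper58.LU.atom_of_arcs hν _ (arcs_of_few hμ q₀ hq₀ fun Q => ?_)
  refine le_trans ?_ (hs Q)
  refine Finset.sum_le_sum fun q _ => mul_le_mul_of_nonneg_left ?_ (by positivity)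
  rw [measureReal_def, measureReal_def]
  refine ENNReal.toReal_mono (measure_ne_top _ _) ?_
  calc μ (Few q)ᶜ ≤ μ ((fun y : ℝ => (y : Tor)) ⁻¹' (few q)ᶜ) :=
        measure_mono fun y hy hy' => hy (few_sub q y hy')
    _ ≤ μ.map (fun y : ℝ => (y : Tor)) (few q)ᶜ :=
        Measure.le_map_apply AddCircle.measurable_mk'.aemeasurable _
    _ = ν (few q)ᶜ := by rw [hν]

/-- Markov's inequality for a number of events -/
lemma markov_card {μ : Measure Tor} [IsProbabilityMeasure μ] (I : Finset ℕ)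
    (B : ℕ → Set Tor) [∀ x i, Decidable (x ∈ B i)] (hB : ∀ i, MeasurableSet (B i)) (t : ℝ) :
    t * μ.real {x | t ≤ ((I.filter (fun i => x ∈ B i)).card : ℝ)} ≤ ∑ i ∈ I, μ.real (B i) := by
  have hf : ∀ x, ((I.filter (fun i => x ∈ B i)).card : ℝ)
      = ∑ i ∈ I, (B i).indicator (fun _ => (1 : ℝ)) x := by
    intro x
    rw [Finset.card_filter]
    push_cast
    refine Finset.sum_congr rfl fun i _ => ?_
    simp [Set.indicator_apply]
  have hint : ∀ i, Integrable ((B i).indicator (fun _ => (1 : ℝ))) μ := fun i =>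
    (integrable_const (1 : ℝ)).indicator (hB i)
  have h1 := mul_meas_ge_le_integral_of_nonneg (μ := μ)
    (f := fun x => ∑ i ∈ I, (B i).indicator (fun _ => (1 : ℝ)) x)
    (Filter.Eventually.of_forall fun x => Finset.sum_nonneg fun i _ =>
      Set.indicator_nonneg (fun _ _ => zero_le_one) x)
    (integrable_finsetSum _ fun i _ => hint i) t
  have h2 : ∫ x, ∑ i ∈ I, (B i).indicator (fun _ => (1 : ℝ)) x ∂μ = ∑ i ∈ I, μ.real (B i) := by
    rw [integral_finsetSum _ fun i _ => hint i]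
    refine Finset.sum_congr rfl fun i _ => ?_
    rw [integral_indicator (hB i)]
    simp
  rw [h2] at h1
  have h3 : {x | t ≤ ((I.filter (fun i => x ∈ B i)).card : ℝ)}
      = {x | t ≤ ∑ i ∈ I, (B i).indicator (fun _ => (1 : ℝ)) x} := by
    ext x
    show t ≤ ((I.filter (fun i => x ∈ B i)).card : ℝ) ↔
      t ≤ ∑ i ∈ I, (B i).indicator (fun _ => (1 : ℝ)) x
    rw [hf x]
  rw [h3]
  exact h1

theorem preserving_three_pow {ν : Measure Tor}
    (h3 : MeasurePreserving (fun x : Tor => (3 : ℕ) • x) ν ν) (b : ℕ) :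
    MeasurePreserving (fun x : Tor => (3 ^ b : ℕ) • x) ν ν := by
  induction b with
  | zero =>
    have e : (fun x : Tor => (3 ^ 0 : ℕ) • x) = id := by
      funext x
      simp
    rw [e]
    exact MeasurePreserving.id ν
  | succ b ih =>
    have e : (fun x : Tor => (3 ^ (b + 1) : ℕ) • x) =
        (fun x : Tor => (3 : ℕ) • x) ∘ fun x : Tor => (3 ^ b : ℕ) • x := by
      funext x
      show (3 ^ (b + 1) : ℕ) • x = (3 : ℕ) • (3 ^ b : ℕ) • x
      rw [← mul_smul, pow_succ']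
    rw [e]
    exact h3.comp ih

/-- If few arcs cover most of the measure then most points have few arcs: Markov's inequality and
the invariance under `x ↦ 3 x`. -/
theorem few_compl_le {ν : Measure Tor} [IsProbabilityMeasure ν]
    (h3 : MeasurePreserving (fun x : Tor => (3 : ℕ) • x) ν ν) (q : ℕ) (S : Finset ℕ)
    (hS : 2 * S.card ^ 2 < 2 ^ q) :
    ν.real (few q)ᶜ ≤ 4 * ν.real (⋃ i ∈ S, arc (q + 4) i)ᶜ := by
  classical
  obtain ⟨U, hU⟩ : ∃ U, U = ⋃ i ∈ S, arc (q + 4) i := ⟨_, rfl⟩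
  have hUm : MeasurableSet U := by
    rw [hU]
    exact measurableSet_arcs _ _
  rw [← hU]
  have hm : ∀ b : ℕ, MeasurableSet ((fun x : Tor => (3 ^ b : ℕ) • x) ⁻¹' Uᶜ) := fun b =>
    (preserving_three_pow h3 b).measurable hUm.compl
  have hB : ∀ b : ℕ, ν.real ((fun x : Tor => (3 ^ b : ℕ) • x) ⁻¹' Uᶜ) = ν.real Uᶜ := by
    intro b
    have h1 := (preserving_three_pow h3 b).measure_preimage hUm.compl.nullMeasurableSet
    simp only [Measure.real, h1]
  have h1 := markov_card (μ := ν) (range (2 ^ q)) (fun b => (fun x : Tor => (3 ^ b : ℕ) • x) ⁻¹' Uᶜ)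
    hm ((2 : ℝ) ^ q / 4)
  rw [Finset.sum_congr rfl fun b _ => hB b, Finset.sum_const, Finset.card_range, nsmul_eq_mul]
    at h1
  have h2 : (few q)ᶜ ⊆ {x | (2 : ℝ) ^ q / 4 ≤ (((range (2 ^ q)).filter
      (fun b => x ∈ (fun x : Tor => (3 ^ b : ℕ) • x) ⁻¹' Uᶜ)).card : ℝ)} := by
    intro x hx
    have h3 : ¬ 3 * 2 ^ q ≤ 4 * {b : ℕ | b < 2 ^ q ∧ (3 ^ b : ℕ) • x ∈ U}.ncard := by
      intro h4
      exact hx ⟨S, hS, by rw [← hU]; exact h4⟩
    rw [ncard_eq] at h3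
    have h4 := Finset.card_filter_add_card_filter_not (s := range (2 ^ q))
      (fun b => (3 ^ b : ℕ) • x ∈ U)
    rw [Finset.card_range] at h4
    have h5 : 2 ^ q ≤ 4 * ((range (2 ^ q)).filter
        (fun b => ¬ (3 ^ b : ℕ) • x ∈ U)).card := by
      omega
    have h7 : ((2 : ℝ) ^ q) ≤ 4 * (((range (2 ^ q)).filter
        (fun b => ¬ (3 ^ b : ℕ) • x ∈ U)).card : ℝ) := by exact_mod_cast h5
    have h8 : (2 : ℝ) ^ q / 4 ≤ (((range (2 ^ q)).filter
      (fun b => ¬ (3 ^ b : ℕ) • x ∈ U)).card : ℝ) := by linarith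
    rw [Set.mem_ofPred_eq]
    convert h8 using 3
    refine Finset.filter_congr fun b _ => ?_
    rfl
  have h3 := measureReal_mono (μ := ν) h2 (measure_ne_top ν _)
  have h4 : (0 : ℝ) < 2 ^ q := by positivity
  have h5 : (2 : ℝ) ^ q / 4 * ν.real (few q)ᶜ ≤ 2 ^ q * ν.real Uᶜ := by
    refine (mul_le_mul_of_nonneg_left h3 (by positivity)).trans ?_
    push_cast at h1
    exact h1
  have h6 : (2 : ℝ) ^ q * (ν.real (few q)ᶜ) ≤ 2 ^ q * (4 * ν.real Uᶜ) := by
    linarith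
  exact le_of_mul_le_mul_left h6 h4

end Helper75.RE
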