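import Mathlib
import Pool.Agent.Helper75.RE.Arcs

/-!
# Renyi entropy of order `s < 1 / 3`

If the sums of the `s`-th powers of the masses of the dyadic arcs of length `2 ^ (-W)` are at most
`2 ^ (ε W)` for all large `W`, where `0 < s < 1 / 3` and `ε < (1 - 3 s) / 2`, then few arcs cover
most of the measure.
-/

set_option autoImplicit false

open MeasureTheory Finset Filter

namespace Helper75.RE

/-- the sum of the `s`-th powers of the masses of the dyadic arcs of length `2 ^ (-W)` -/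
noncomputable def powSum (ν : Measure Tor) (s : ℝ) (W : ℕ) : ℝ :=
  ∑ i ∈ range (2 ^ W), ν.real (arc W i) ^ s

/-- the arcs of mass at least `v` -/
noncomputable def heavy (ν : Measure Tor) (v : ℝ) (W : ℕ) : Finset ℕ :=
  open Classical in (range (2 ^ W)).filter fun i => v ≤ ν.real (arc W i)

theorem heavy_card (ν : Measure Tor) {s v : ℝ} (hs : 0 < s) (hv : 0 < v) (W : ℕ) :
    (heavy ν v W).card * v ^ s ≤ powSum ν s W := by
  classical
  unfold powSum heavy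
  rw [← nsmul_eq_mul, ← Finset.sum_const]
  calc ∑ i ∈ (range (2 ^ W)).filter (fun i => v ≤ ν.real (arc W i)), v ^ s
      ≤ ∑ i ∈ (range (2 ^ W)).filter (fun i => v ≤ ν.real (arc W i)), ν.real (arc W i) ^ s := by
        refine Finset.sum_le_sum fun i hi => ?_
        rw [Finset.mem_filter] at hi
        exact Real.rpow_le_rpow hv.le hi.2 hs.le
    _ ≤ _ := Finset.sum_le_sum_of_subset_of_nonneg (Finset.filter_subset _ _) fun i _ _ =>
        Real.rpow_nonneg measureReal_nonneg _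

theorem heavy_compl (ν : Measure Tor) [IsProbabilityMeasure ν] {s v : ℝ} (hs1 : s < 1)
    (hv : 0 < v) (W : ℕ) :
    ν.real (⋃ i ∈ heavy ν v W, arc W i)ᶜ ≤ v ^ (1 - s) * powSum ν s W := by
  classical
  have h1 : (⋃ i ∈ heavy ν v W, arc W i)ᶜ ⊆
      ⋃ i ∈ (range (2 ^ W)).filter (fun i => ¬ v ≤ ν.real (arc W i)), arc W i := by
    intro x hx
    rw [Set.mem_iUnion₂]
    have h2 : x ∈ arc W (idx W x) := by
      rw [mem_arc_iff, Nat.mod_eq_of_lt (idx_lt W x)]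
    refine ⟨idx W x, ?_, h2⟩
    rw [Finset.mem_filter, Finset.mem_range]
    refine ⟨idx_lt W x, fun h3 => hx ?_⟩
    rw [Set.mem_iUnion₂]
    refine ⟨idx W x, ?_, h2⟩
    unfold heavy
    rw [Finset.mem_filter, Finset.mem_range]
    exact ⟨idx_lt W x, h3⟩
  calc ν.real (⋃ i ∈ heavy ν v W, arc W i)ᶜ
      ≤ ν.real (⋃ i ∈ (range (2 ^ W)).filter (fun i => ¬ v ≤ ν.real (arc W i)), arc W i) :=
        measureReal_mono h1 (measure_ne_top _ _)
    _ ≤ ∑ i ∈ (range (2 ^ W)).filter (fun i => ¬ v ≤ ν.real (arc W i)), ν.real (arc W i) :=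
        measureReal_biUnion_finset_le _ _
    _ ≤ ∑ i ∈ (range (2 ^ W)).filter (fun i => ¬ v ≤ ν.real (arc W i)),
          v ^ (1 - s) * ν.real (arc W i) ^ s := by
        refine Finset.sum_le_sum fun i hi => ?_
        rw [Finset.mem_filter, not_le] at hi
        rcases eq_or_lt_of_le (measureReal_nonneg : 0 ≤ ν.real (arc W i)) with h3 | h3
        · rw [← h3]
          exact mul_nonneg (Real.rpow_nonneg hv.le _) (Real.rpow_nonneg le_rfl _)
        · have h4 : ν.real (arc W i) = ν.real (arc W i) ^ (1 - s) * ν.real (arc W i) ^ s := by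
            rw [← Real.rpow_add h3, sub_add_cancel, Real.rpow_one]
          have h5 : ν.real (arc W i) ^ (1 - s) ≤ v ^ (1 - s) :=
            Real.rpow_le_rpow h3.le hi.2.le (by linarith)
          calc ν.real (arc W i) = ν.real (arc W i) ^ (1 - s) * ν.real (arc W i) ^ s := h4
            _ ≤ _ := mul_le_mul_of_nonneg_right h5 (Real.rpow_nonneg h3.le _)
    _ ≤ ∑ i ∈ range (2 ^ W), v ^ (1 - s) * ν.real (arc W i) ^ s :=
        Finset.sum_le_sum_of_subset_of_nonneg (Finset.filter_subset _ _) fun i _ _ =>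
          mul_nonneg (Real.rpow_nonneg hv.le _) (Real.rpow_nonneg measureReal_nonneg _)
    _ = v ^ (1 - s) * powSum ν s W := by
        rw [← Finset.mul_sum]
        rfl

/-- the tails of a summable family are small -/
theorem tail_small {f : ℕ → ℝ} (hf : ∀ q, 0 ≤ f q) (hs : Summable f) {δ : ℝ} (hδ : 0 < δ) :
    ∃ q₁, ∀ q₀, q₁ ≤ q₀ → ∀ Q, ∑ q ∈ Ico q₀ Q, f q ≤ δ := by
  have h1 := (tendsto_sum_nat_add f).eventually (gt_mem_nhds hδ)
  obtain ⟨q₁, hq₁⟩ := eventually_atTop.1 h1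
  refine ⟨q₁, fun q₀ hq₀ Q => ?_⟩
  rw [Finset.sum_Ico_eq_sum_range]
  have h2 : Summable fun k => f (k + q₀) := (summable_nat_add_iff q₀).2 hs
  have h3 := h2.sum_le_tsum (range (Q - q₀)) fun k _ => hf _
  refine le_trans (le_of_eq ?_) (h3.trans (hq₁ q₀ hq₀).le)
  refine Finset.sum_congr rfl fun k _ => ?_
  rw [add_comm]

/-- Small sums of powers give small covers, uniformly in the measure. -/
theorem renyi_cover {s : ℝ} (hs : 0 < s) (hs' : s < 1 / 3) {ε : ℝ}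
    (hε : ε < (1 - 3 * s) / 2) {δ : ℝ} (hδ : 0 < δ) (W₀ : ℕ) :
    ∃ q₀, W₀ ≤ q₀ ∧ ∀ (ν : Measure Tor), IsProbabilityMeasure ν →
      (∀ W, W₀ ≤ W → powSum ν s W ≤ (2 : ℝ) ^ (ε * W)) →
      ∃ S : ℕ → Finset ℕ, (∀ q, q₀ ≤ q → 2 * (S q).card ^ 2 < 2 ^ q) ∧
        ∀ Q, ∑ q ∈ Ico q₀ Q, (2 : ℝ) ^ q * ν.real (⋃ i ∈ S q, arc (q + 4) i)ᶜ ≤ δ := by
  obtain ⟨A, hA⟩ : ∃ A : ℕ → ℝ, A = fun q : ℕ => (((q : ℝ) - 2) / 2 - ε * (q + 4)) / s :=
    ⟨_, rfl⟩
  have hv : ∀ q, (0 : ℝ) < 2 ^ (-A q) := fun q => Real.rpow_pos_of_pos (by norm_num) _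
  have hsA : ∀ q : ℕ, s * A q = ((q : ℝ) - 2) / 2 - ε * (q + 4) := by
    intro q
    rw [hA]
    field_simp
  obtain ⟨c, hc⟩ : ∃ c, c = 1 + ε - (1 - s) * (1 / 2 - ε) / s := ⟨_, rfl⟩
  obtain ⟨c₀, hc₀⟩ : ∃ c₀, c₀ = 4 * ε + (1 - s) * (1 + 4 * ε) / s := ⟨_, rfl⟩
  have hcneg : c < 0 := by
    rw [hc, sub_neg, lt_div_iff₀ hs]
    nlinarith
  have hgeo : Summable fun q : ℕ => (2 : ℝ) ^ c₀ * ((2 : ℝ) ^ c) ^ q := by
    refine (summable_geometric_of_lt_one (Real.rpow_nonneg (by norm_num) _) ?_).mul_left _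
    exact Real.rpow_lt_one_of_one_lt_of_neg (by norm_num) hcneg
  obtain ⟨q₁, hq₁⟩ := tail_small (fun q => by positivity) hgeo hδ
  refine ⟨q₁ + W₀, by omega, fun ν hν hle => ?_⟩
  have hq4 : ∀ q, W₀ ≤ q → powSum ν s (q + 4) ≤ (2 : ℝ) ^ (ε * (q + 4)) := by
    intro q hq
    have h4 := hle (q + 4) (by omega)
    push_cast at h4
    exact h4
  refine ⟨fun q => heavy ν (2 ^ (-A q)) (q + 4), fun q hq => ?_, fun Q => ?_⟩
  · have h5 := (heavy_card ν hs (hv q) (q + 4)).trans (hq4 q (by omega))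
    have h6 : ((2 : ℝ) ^ (-A q)) ^ s = 2 ^ (-(s * A q)) := by
      rw [← Real.rpow_mul (by norm_num)]
      congr 1
      ring
    rw [h6, hsA, ← le_div_iff₀ (Real.rpow_pos_of_pos (by norm_num) _),
      ← Real.rpow_sub (by norm_num)] at h5
    have h7 : ε * (q + 4) - -(((q : ℝ) - 2) / 2 - ε * (q + 4)) = ((q : ℝ) - 2) / 2 := by ring
    rw [h7] at h5
    have h8 : ((heavy ν (2 ^ (-A q)) (q + 4)).card : ℝ) ^ 2 ≤ 2 ^ ((q : ℝ) - 2) := by
      calc ((heavy ν (2 ^ (-A q)) (q + 4)).card : ℝ) ^ 2 ≤ (2 ^ (((q : ℝ) - 2) / 2)) ^ 2 :=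
            pow_le_pow_left₀ (Nat.cast_nonneg _) h5 2
        _ = 2 ^ ((q : ℝ) - 2) := by
            rw [← Real.rpow_natCast, ← Real.rpow_mul (by norm_num)]
            congr 1
            push_cast
            ring
    have h9 : (2 : ℝ) * ((heavy ν (2 ^ (-A q)) (q + 4)).card : ℝ) ^ 2 < 2 ^ q := by
      calc (2 : ℝ) * ((heavy ν (2 ^ (-A q)) (q + 4)).card : ℝ) ^ 2 ≤ 2 * 2 ^ ((q : ℝ) - 2) := by
            linarith
        _ = 2 ^ ((q : ℝ) - 1) := by
            have : (q : ℝ) - 1 = 1 + ((q : ℝ) - 2) := by ring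
            rw [this, Real.rpow_add (by norm_num), Real.rpow_one]
        _ < 2 ^ (q : ℝ) := Real.rpow_lt_rpow_of_exponent_lt (by norm_num) (by linarith)
        _ = 2 ^ q := Real.rpow_natCast _ _
    exact_mod_cast h9
  · refine le_trans (Finset.sum_le_sum fun p hp => ?_) (hq₁ (q₁ + W₀) (by omega) Q)
    rw [Finset.mem_Ico] at hp
    have h5 := heavy_compl ν (show s < 1 by linarith) (hv p) (p + 4)
    have h6 := hq4 p (by omega)
    have h7 : ((2 : ℝ) ^ (-A p)) ^ (1 - s) = 2 ^ (-((1 - s) * A p)) := by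
      rw [← Real.rpow_mul (by norm_num)]
      congr 1
      ring
    rw [h7] at h5
    have h8 : (0 : ℝ) < 2 ^ (-((1 - s) * A p)) := Real.rpow_pos_of_pos (by norm_num) _
    calc (2 : ℝ) ^ p * ν.real (⋃ i ∈ heavy ν (2 ^ (-A p)) (p + 4), arc (p + 4) i)ᶜ
        ≤ 2 ^ p * (2 ^ (-((1 - s) * A p)) * 2 ^ (ε * (p + 4))) := by
          refine mul_le_mul_of_nonneg_left (h5.trans ?_) (by positivity)
          exact mul_le_mul_of_nonneg_left h6 h8.le
      _ = 2 ^ ((p : ℝ) + (-((1 - s) * A p) + ε * (p + 4))) := by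
          rw [Real.rpow_add (by norm_num), Real.rpow_add (by norm_num), Real.rpow_natCast]
      _ = 2 ^ (c₀ + c * p) := by
          congr 1
          rw [hc₀, hc, hA]
          field_simp
          ring
      _ = 2 ^ c₀ * ((2 : ℝ) ^ c) ^ p := by
          rw [Real.rpow_add (by norm_num), Real.rpow_mul (by norm_num), Real.rpow_natCast]

/-- Large sums of powers if no cover is small. -/
theorem renyi_of_cover {ν : Measure Tor} [hν : IsProbabilityMeasure ν]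
    (h : ∀ S : ℕ → Finset ℕ, (∀ᶠ q in atTop, 2 * (S q).card ^ 2 < 2 ^ q) →
      ¬ Summable fun q : ℕ => (2 : ℝ) ^ q * ν.real (⋃ i ∈ S q, arc (q + 4) i)ᶜ)
    {s : ℝ} (hs : 0 < s) (hs' : s < 1 / 3) {ε : ℝ} (hε : ε < (1 - 3 * s) / 2) :
    ∃ᶠ W : ℕ in atTop, (2 : ℝ) ^ (ε * W) < powSum ν s W := by
  intro hcon
  have hle : ∀ᶠ W : ℕ in atTop, powSum ν s W ≤ (2 : ℝ) ^ (ε * W) := hcon.mono fun W h => not_lt.1 h
  obtain ⟨W₀, hW₀⟩ := eventually_atTop.1 hle
  obtain ⟨q₀, -, hq₀⟩ := renyi_cover hs hs' hε one_pos W₀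
  obtain ⟨S, hS, hsum⟩ := hq₀ ν hν hW₀
  refine h S (eventually_atTop.2 ⟨q₀, hS⟩) ?_
  rw [← summable_nat_add_iff q₀]
  refine summable_of_sum_range_le (c := 1) (fun q => by positivity) fun n => ?_
  have h1 := hsum (q₀ + n)
  rw [Finset.sum_Ico_eq_sum_range, Nat.add_sub_cancel_left] at h1
  refine le_trans (le_of_eq ?_) h1
  refine Finset.sum_congr rfl fun k _ => ?_
  rw [add_comm k q₀]

end Helper75.RE
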