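import Mathlib
import Pool.Agent.Helper75.RE.Renyi

/-!
# Renyi entropy: measures of finite support
-/

set_option autoImplicit false

open MeasureTheory Finset Filter

namespace Helper75.RE

/-- For a measure supported on `D` points the sums of powers are at most `D`. -/
theorem powSum_le_of_finite {ν : Measure Tor} [IsProbabilityMeasure ν] (Z : Finset Tor)
    (hν : ∀ᵐ x ∂ν, x ∈ Z) {s : ℝ} (hs : 0 < s) (W : ℕ) :
    powSum ν s W ≤ Z.card := by
  classical
  have h1 : ∀ i ∈ range (2 ^ W), i ∉ Z.image (idx W) → ν.real (arc W i) ^ s = 0 := by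
    intro i hi hn
    have h2 : ν (arc W i) = 0 := by
      refine measure_eq_zero_iff_ae_notMem.2 ?_
      filter_upwards [hν] with x hxZ hx
      apply hn
      rw [Finset.mem_image]
      refine ⟨x, hxZ, ?_⟩
      rw [mem_arc_iff, Nat.mod_eq_of_lt (Finset.mem_range.1 hi)] at hx
      exact hx
    rw [measureReal_def, h2, ENNReal.toReal_zero, Real.zero_rpow hs.ne']
  have h3 : ∀ i, ν.real (arc W i) ^ s ≤ 1 := fun i =>
    Real.rpow_le_one measureReal_nonneg measureReal_le_one hs.le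
  calc powSum ν s W
      = ∑ i ∈ (range (2 ^ W)).filter (fun i => i ∈ Z.image (idx W)),
          ν.real (arc W i) ^ s := by
        unfold powSum
        rw [Finset.sum_filter]
        refine Finset.sum_congr rfl fun i hi => ?_
        split_ifs with h
        · rfl
        · exact h1 i hi h
    _ ≤ ∑ i ∈ (range (2 ^ W)).filter (fun i => i ∈ Z.image (idx W)), (1 : ℝ) :=
        Finset.sum_le_sum fun i _ => h3 i
    _ = (((range (2 ^ W)).filter (fun i => i ∈ Z.image (idx W))).card : ℝ) := by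
        rw [Finset.sum_const, nsmul_eq_mul, mul_one]
    _ ≤ Z.card := by
        have h4 : ((range (2 ^ W)).filter (fun i => i ∈ Z.image (idx W))).card ≤
            Z.card := by
          refine (Finset.card_le_card (t := Z.image (idx W)) ?_).trans
            Finset.card_image_le
          intro i hi
          exact (Finset.mem_filter.1 hi).2
        exact_mod_cast h4

/-- no cover is small if most points do not have a small cover -/
theorem cover_of_few {ν : Measure Tor} [IsProbabilityMeasure ν]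
    (h3 : MeasurePreserving (fun x : Tor => (3 : ℕ) • x) ν ν)
    (h : ¬ Summable fun q : ℕ => (2 : ℝ) ^ q * ν.real (few q)ᶜ) (S : ℕ → Finset ℕ)
    (hS : ∀ᶠ q in atTop, 2 * (S q).card ^ 2 < 2 ^ q) :
    ¬ Summable fun q : ℕ => (2 : ℝ) ^ q * ν.real (⋃ i ∈ S q, arc (q + 4) i)ᶜ := by
  intro hs
  apply h
  obtain ⟨q₀, hq₀⟩ := eventually_atTop.1 hS
  rw [← summable_nat_add_iff q₀] at hs ⊢
  refine Summable.of_nonneg_of_le (fun q => by positivity) (fun q => ?_) (hs.mul_left 4)
  have h1 := few_compl_le h3 (q + q₀) (S (q + q₀)) (hq₀ _ (by omega))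
  have h2 : (0 : ℝ) < 2 ^ (q + q₀) := by positivity
  nlinarith

/-- The sums over large scales are not small if all atoms are small. -/
theorem few_large {ν : Measure Tor} [IsProbabilityMeasure ν]
    (h2 : MeasurePreserving (fun x : Tor => (2 : ℕ) • x) ν ν)
    (h3 : MeasurePreserving (fun x : Tor => (3 : ℕ) • x) ν ν) (q₀ : ℕ) (hq₀ : 3 ≤ q₀)
    (hat : ∀ x, ν.real {x} < (3 / 4) / 3 ^ (2 ^ q₀)) :
    ∃ Q, 1 / 24 < ∑ q ∈ Ico q₀ Q, (2 : ℝ) ^ q * ν.real (few q)ᶜ := by
  by_contra hcon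
  push Not at hcon
  obtain ⟨a, ha⟩ := atom_of_few h2 h3 q₀ hq₀ hcon
  exact absurd (hat a) (not_lt.2 ha)

/-- The theorem on the complexity of orbits for measures without atoms. -/
theorem not_summable_few {ν : Measure Tor} [IsProbabilityMeasure ν]
    (h2 : MeasurePreserving (fun x : Tor => (2 : ℕ) • x) ν ν)
    (h3 : MeasurePreserving (fun x : Tor => (3 : ℕ) • x) ν ν) (h0 : ∀ x, ν {x} = 0) :
    ¬ Summable fun q : ℕ => (2 : ℝ) ^ q * ν.real (few q)ᶜ := by
  intro hs
  obtain ⟨q₁, hq₁⟩ := tail_small (fun q => by positivity) hs (show (0 : ℝ) < 1 / 24 by norm_num)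
  obtain ⟨Q, hQ⟩ := few_large h2 h3 (q₁ + 3) (by omega) fun x => by
    rw [measureReal_def, h0 x, ENNReal.toReal_zero]
    positivity
  exact absurd (hq₁ (q₁ + 3) (by omega) Q) (not_le.2 hQ)

/-- The sums of powers are large at some large scale if all atoms are small. -/
theorem renyi_large {s : ℝ} (hs : 0 < s) (hs' : s < 1 / 3) {ε : ℝ}
    (hε : ε < (1 - 3 * s) / 2) (W₀ : ℕ) :
    ∃ c : ℝ, 0 < c ∧ ∀ (ν : Measure Tor), IsProbabilityMeasure ν →
      MeasurePreserving (fun x : Tor => (2 : ℕ) • x) ν ν →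
      MeasurePreserving (fun x : Tor => (3 : ℕ) • x) ν ν → (∀ x, ν.real {x} < c) →
      ∃ W, W₀ ≤ W ∧ (2 : ℝ) ^ (ε * W) < powSum ν s W := by
  obtain ⟨q₀, hq₀, h⟩ := renyi_cover hs hs' hε (show (0 : ℝ) < 1 / 96 by norm_num) (W₀ + 3)
  refine ⟨(3 / 4) / 3 ^ (2 ^ q₀), by positivity, fun ν hν h2 h3 hat => ?_⟩
  by_contra hcon
  push Not at hcon
  obtain ⟨S, hS, hsum⟩ := h ν hν fun W hW => hcon W (by omega)
  obtain ⟨Q, hQ⟩ := few_large h2 h3 q₀ (by omega) hat
  have h4 : ∑ q ∈ Ico q₀ Q, (2 : ℝ) ^ q * ν.real (few q)ᶜ ≤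
      4 * ∑ q ∈ Ico q₀ Q, (2 : ℝ) ^ q * ν.real (⋃ i ∈ S q, arc (q + 4) i)ᶜ := by
    rw [Finset.mul_sum]
    refine Finset.sum_le_sum fun q hq => ?_
    rw [Finset.mem_Ico] at hq
    have h5 := few_compl_le h3 q (S q) (hS q hq.1)
    have h6 : (0 : ℝ) < 2 ^ q := by positivity
    nlinarith
  have h5 := hsum Q
  linarith

end Helper75.RE
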