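import Mathlib
import Pool.Agent.Helper40.LPA.Trace
import Pool.Agent.Helper58.LU.Trace
import Pool.Agent.Helper58.LU.Conv
import Pool.Agent.Helper75.RE.Finite
import Pool.Agent.Helper61.RH.Unb
import Pool.Agent.Helper17.GH.Renyi
import Pool.Agent.Helper17.GH.Dio
import Pool.Agent.Helper35.LIM.Main

/-!
# Renyi entropy of extreme traces

`G` is the group generated by `x ↦ 2x`, `x ↦ 3x`, `x ↦ x + 1`, `τ` is the translation by one.
-/

set_option autoImplicit false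
open scoped ComplexOrder InnerProductSpace
open Filter MeasureTheory Finset Helper17.FU Helper17.FUGroup Helper91.TTT

namespace Helper75.REFull

/-- extreme normalised positive definite class functions -/
def IsExtremeTrace (G : Subgroup (Equiv.Perm ℚ)) (φ : G → ℂ) : Prop :=
  φ ∈ Set.extremePoints ℝ {ψ : G → ℂ | ψ 1 = 1 ∧ (∀ g h : G, ψ (h * g * h⁻¹) = ψ g) ∧
    ∀ (s : Finset G) (c : G → ℂ), 0 ≤ ∑ i ∈ s, ∑ j ∈ s, star (c j) * c i * ψ (j⁻¹ * i)}

/-- the span of the translates of `φ` by the translations in `G`; its dimension is the conditional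
dimension of `φ` -/
def condSpan (G : Subgroup (Equiv.Perm ℚ)) (φ : G → ℂ) : Submodule ℂ (G → ℂ) :=
  Submodule.span ℂ {F : G → ℂ | ∃ n : G,
    (∃ r : ℚ, ∀ x : ℚ, (n : Equiv.Perm ℚ) x = x + r) ∧ F = fun x => φ (n * x)}

/-- `μ` is the probability measure on the circle with Fourier coefficients `φ (τ ^ m)` -/
def IsMeasureOf {G : Subgroup (Equiv.Perm ℚ)} (τ : G) (φ : G → ℂ)
    (μ : Measure (AddCircle (1 : ℝ))) : Prop :=
  IsProbabilityMeasure μ ∧ ∀ m : ℤ, ∫ x, (fourier m x : ℂ) ∂μ = φ (τ ^ m)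

/-- the arc `[i / 2 ^ W, (i + 1) / 2 ^ W)` of the circle -/
def arc (W i : ℕ) : Set (AddCircle (1 : ℝ)) :=
  (fun t : ℝ => (t : AddCircle (1 : ℝ))) '' Set.Ico ((i : ℝ) / 2 ^ W) ((i + 1) / 2 ^ W)

/-- the sum of the `s`-th powers of the masses of the `2 ^ W` dyadic arcs of length `2 ^ (-W)` -/
noncomputable def powSum (μ : Measure (AddCircle (1 : ℝ))) (s : ℝ) (W : ℕ) : ℝ :=
  ∑ i ∈ range (2 ^ W), μ.real (arc W i) ^ s

/-- the Shannon entropy of the partition of the circle into the `2 ^ K` dyadic arcs of length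
`2 ^ (-K)` -/
noncomputable def shannon (μ : Measure (AddCircle (1 : ℝ))) (K : ℕ) : ℝ :=
  ∑ i ∈ range (2 ^ K), Real.negMulLog (μ.real (arc K i))

/-- the points `x` for which some set of fewer than `2 ^ ((q - 1) / 2)` dyadic arcs of length
`2 ^ (-(q + 4))` contains three quarters of the points `3 ^ b x`, `b < 2 ^ q` -/
def Few (q : ℕ) : Set (AddCircle (1 : ℝ)) :=
  {x | ∃ S : Finset ℕ, 2 * S.card ^ 2 < 2 ^ q ∧
    3 * 2 ^ q ≤ 4 * {b : ℕ | b < 2 ^ q ∧ (3 ^ b : ℕ) • x ∈ ⋃ i ∈ S, arc (q + 4) i}.ncard}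

/-- **Entropy of extreme traces.**  (1) For an extreme trace infinite conditional dimension is
equivalent to the unboundedness of the Shannon entropies `H (K)`, to the divergence of the sum of
`2 ^ (-j) H (2 ^ (2 ^ j))`, to positive (upper) Renyi entropy of every order `s < 1 / 3` with an
explicit bound, to growth of the sums of `s`-th powers like `W ^ c`, `c < 2 - 2 s`, and to the
complexity of the orbits at infinitely many scales.  (2) For `c < 1` the entropy is at least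
`c log K` for all large `K` unless the trace is a limit of extreme traces of finite conditional
dimension.  (3) It is at least `c log K`, `c < 2 / k`, unless almost all points are very well
approximable.  (4) Uniformity: the bound on the sums of powers holds at some scale for all extreme
traces of large conditional dimension, whereas bounded conditional dimension gives bounded sums of
powers.  Also: the Shannon entropy is bounded by the measures of the sets of points with complex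
orbits under `x ↦ 3 x`; if it grows faster than `K ^ a` then the Renyi entropy of every order
`s < 1 / (3 - 2 a)` is positive; the mass of the ball of radius `r` around a point badly
approximated by the rationals with denominators at most `8 ^ a` is at most `1 / a ^ 2`; and the
sums in (1) have uniform lower bounds for extreme traces of large conditional dimension. -/
theorem result :
  ∀ (s2 s3 t : Equiv.Perm ℚ), (∀ x : ℚ, s2 x = 2 * x) → (∀ x : ℚ, s3 x = 3 * x) →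
  (∀ x : ℚ, t x = x + 1) →
  ∀ (G : Subgroup (Equiv.Perm ℚ)), G = Subgroup.closure {s2, s3, t} →
  ∀ τ : G, (τ : Equiv.Perm ℚ) = t →
  (∀ φ : G → ℂ, IsExtremeTrace G φ →
    ∃ μ : Measure (AddCircle (1 : ℝ)), IsMeasureOf τ φ μ ∧ List.TFAE [
      ¬ FiniteDimensional ℂ (condSpan G φ),
      ∀ B : ℝ, ∃ K : ℕ, B < shannon μ K,
      ¬ Summable fun j : ℕ => shannon μ (2 ^ (2 ^ j)) / 2 ^ j,
      ∀ s ε : ℝ, 0 < s → s < 1 / 3 → ε < (1 - 3 * s) / 2 →
        ∃ᶠ W : ℕ in atTop, (2 : ℝ) ^ (ε * W) < powSum μ s W,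
      ∀ s c : ℝ, 0 < s → s < 1 → c < 2 * (1 - s) →
        ∃ᶠ W : ℕ in atTop, (W : ℝ) ^ c < powSum μ s W,
      ∃ s : ℝ, 0 < s ∧ ∀ B : ℝ, ∃ W : ℕ, B < powSum μ s W,
      ¬ Summable fun q : ℕ => 2 ^ q * μ.real (Few q)ᶜ,
      ∀ S : ℕ → Finset ℕ, (∀ᶠ q in atTop, 2 * (S q).card ^ 2 < 2 ^ q) →
        ¬ Summable fun q : ℕ => 2 ^ q * μ.real (⋃ i ∈ S q, arc (q + 4) i)ᶜ]) ∧
  (∀ φ : G → ℂ, IsExtremeTrace G φ → ∀ μ : Measure (AddCircle (1 : ℝ)), IsMeasureOf τ φ μ →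
    ∀ c : ℝ, c < 1 →
      (∀ᶠ K : ℕ in atTop, c * Real.log K ≤ shannon μ K) ∨
      φ ∈ closure {ψ : G → ℂ | IsExtremeTrace G ψ ∧ FiniteDimensional ℂ (condSpan G ψ)}) ∧
  (∀ φ : G → ℂ, IsExtremeTrace G φ → ∀ μ : Measure (AddCircle (1 : ℝ)), IsMeasureOf τ φ μ →
    ∀ k c : ℝ, 1 ≤ k → c < 2 / k →
      (∀ᶠ K : ℕ in atTop, c * Real.log K ≤ shannon μ K) ∨
      ∀ᵐ x ∂μ, ∀ C : ℕ, ∃ b : ℕ, 1 ≤ b ∧ ‖b • x‖ < Real.exp (-(C * (1 + Real.log b) ^ k))) ∧
  (∀ s ε : ℝ, 0 < s → s < 1 / 3 → ε < (1 - 3 * s) / 2 → ∀ W₀ : ℕ, ∃ D : ℕ,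
    ∀ φ : G → ℂ, IsExtremeTrace G φ → (D : Cardinal) < Module.rank ℂ (condSpan G φ) →
      ∀ μ : Measure (AddCircle (1 : ℝ)), IsMeasureOf τ φ μ →
        ∃ W, W₀ ≤ W ∧ (2 : ℝ) ^ (ε * W) < powSum μ s W) ∧
  (∀ D : ℕ, ∀ φ : G → ℂ, IsExtremeTrace G φ →
    Module.rank ℂ (condSpan G φ) ≤ (D : Cardinal) →
      ∀ μ : Measure (AddCircle (1 : ℝ)), IsMeasureOf τ φ μ →
        ∀ (s : ℝ) (W : ℕ), 0 < s → powSum μ s W ≤ D) ∧
  (∀ φ : G → ℂ, IsExtremeTrace G φ → ∀ μ : Measure (AddCircle (1 : ℝ)), IsMeasureOf τ φ μ →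
    ∀ Q K : ℕ, K ≤ 2 ^ Q →
      shannon μ K ≤ 20 * (1 + ∑ q ∈ range Q, ((q : ℝ) + 1) * (2 ^ q * μ.real (Few q)ᶜ))) ∧
  (∀ φ : G → ℂ, IsExtremeTrace G φ → ∀ μ : Measure (AddCircle (1 : ℝ)), IsMeasureOf τ φ μ →
    ∀ s a ε : ℝ, 0 < s → s < 1 → 0 ≤ a → ε < (1 - (3 - 2 * a) * s) / 2 →
      (∀ C : ℝ, ∃ K : ℕ, C * (K : ℝ) ^ a < shannon μ K) →
        ∃ᶠ W : ℕ in atTop, (2 : ℝ) ^ (ε * W) < powSum μ s W) ∧
  (∀ φ : G → ℂ, IsExtremeTrace G φ → ∀ μ : Measure (AddCircle (1 : ℝ)), IsMeasureOf τ φ μ →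
    ∀ (a : ℕ) (x : AddCircle (1 : ℝ)) (r : ℝ),
      (∀ b : ℕ, 1 ≤ b → b ≤ 8 ^ a → 2 * 8 ^ a * r < ‖b • x‖) →
        (a : ℝ) ^ 2 * μ.real (Metric.closedBall x r) ≤ 1) ∧
  (∀ j₀ : ℕ, ∃ D : ℕ,
    ∀ φ : G → ℂ, IsExtremeTrace G φ → (D : Cardinal) < Module.rank ℂ (condSpan G φ) →
      ∀ μ : Measure (AddCircle (1 : ℝ)), IsMeasureOf τ φ μ →
        ∃ J : ℕ, 1 / 12 < ∑ j ∈ Ico j₀ J, shannon μ (2 ^ (2 ^ j)) / 2 ^ j) ∧
  (∀ q₀ : ℕ, ∃ D : ℕ,
    ∀ φ : G → ℂ, IsExtremeTrace G φ → (D : Cardinal) < Module.rank ℂ (condSpan G φ) →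
      ∀ μ : Measure (AddCircle (1 : ℝ)), IsMeasureOf τ φ μ →
        ∃ Q : ℕ, 1 / 24 < ∑ q ∈ Ico q₀ Q, 2 ^ q * μ.real (Few q)ᶜ) := by
  intro s2 s3 t h2 h3 ht G hG τ hτ
  subst hG
  have hfew : ∀ q, Few q = Helper75.RE.few q := fun _ => rfl
  have hpow : ∀ (μ : Measure (AddCircle (1 : ℝ))) (s : ℝ) (W : ℕ),
      powSum μ s W = Helper75.RE.powSum μ s W := fun _ _ _ => rfl
  have hent : ∀ (μ : Measure (AddCircle (1 : ℝ))) (K : ℕ),
      shannon μ K = Pool.Agent.Helper61.RH.ent μ K := fun _ _ => rfl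
  -- the measure of an extreme trace is invariant
  have hinv : ∀ φ : GG s2 s3 t → ℂ, IsExtremeTrace (GG s2 s3 t) φ →
      ∀ μ : Measure (AddCircle (1 : ℝ)), IsMeasureOf τ φ μ →
        MeasurePreserving (fun x : AddCircle (1 : ℝ) => (2 : ℕ) • x) μ μ ∧
        MeasurePreserving (fun x : AddCircle (1 : ℝ) => (3 : ℕ) • x) μ μ := by
    intro φ hφ μ hμ
    have hφ' : φ ∈ Set.extremePoints ℝ (TR (GG s2 s3 t)) := hφ
    obtain ⟨μ', hμ'p, hμ', hm2, hm3⟩ := Pool.Agent.Helper40.TMA.exists_measure h2 h3 ht hτ hφ'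
    have hp := hμ.1
    have h5 : μ = μ' := by
      apply Helper17.TranslM.eq_of_fourier
      intro m
      rw [hμ' m]
      exact hμ.2 m
    rw [h5]
    exact ⟨hm2, hm3⟩
  -- large dimension means small atoms
  have hsmall : ∀ c : ℝ, 0 < c → ∃ D : ℕ, ∀ φ : GG s2 s3 t → ℂ,
      IsExtremeTrace (GG s2 s3 t) φ → (D : Cardinal) < Module.rank ℂ (condSpan (GG s2 s3 t) φ) →
      ∀ μ : Measure (AddCircle (1 : ℝ)), IsMeasureOf τ φ μ → ∀ x, μ.real {x} < c := by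
    intro c hc
    refine ⟨6 ^ ⌊1 / c⌋₊, fun φ hφ hD μ hμ x => ?_⟩
    by_contra hcon
    push Not at hcon
    obtain ⟨hm2, hm3⟩ := hinv φ hφ μ hμ
    have hp := hμ.1
    exact absurd (Helper58.LU.rank_of_atom h2 h3 ht hτ hφ hμ.2 hm2 hm3 hc hcon) (not_le.2 hD)
  refine ⟨?_, ?_, ?_, ?_, ?_, ?_, ?_, ?_, ?_, ?_⟩
  · intro φ hφ
    have hφ' : φ ∈ Set.extremePoints ℝ (TR (GG s2 s3 t)) := hφ
    obtain ⟨μ, hμp, hμ, hm2, hm3⟩ := Pool.Agent.Helper40.TMA.exists_measure h2 h3 ht hτ hφ'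
    refine ⟨μ, ⟨hμp, hμ⟩, ?_⟩
    tfae_have 1 → 3 := by
      intro hfd
      exact Helper17.GH.not_summable_ent hm2 hm3
        (Pool.Agent.Helper40.LPA.no_atoms_of_infinite h2 h3 ht hτ hφ' hμ hfd)
    tfae_have 3 → 2 := by
      intro h
      by_contra hcon
      push Not at hcon
      obtain ⟨B, hB⟩ := hcon
      apply h
      have hs : Summable fun j : ℕ => B * (1 / 2 : ℝ) ^ j :=
        (summable_geometric_of_lt_one (by norm_num) (by norm_num)).mul_left _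
      refine Summable.of_nonneg_of_le (fun j => ?_) (fun j => ?_) hs
      · exact div_nonneg (Finset.sum_nonneg fun i _ =>
          Real.negMulLog_nonneg measureReal_nonneg measureReal_le_one) (by positivity)
      · rw [one_div, inv_pow, ← div_eq_mul_inv]
        exact div_le_div_of_nonneg_right (hB _) (by positivity)
    tfae_have 2 → 4 := by
      intro h s ε hs hs' hε
      refine Pool.Agent.Helper61.RH.growth' hm2 hm3 hs (by linarith) (le_refl (0 : ℝ))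
        (by linarith) fun C => ?_
      obtain ⟨K, hK⟩ := h C
      refine ⟨K, ?_⟩
      rw [Real.rpow_zero, mul_one]
      exact hK
    tfae_have 1 → 7 := by
      intro hfd
      exact Helper75.RE.not_summable_few hm2 hm3
        (Pool.Agent.Helper40.LPA.no_atoms_of_infinite h2 h3 ht hτ hφ' hμ hfd)
    tfae_have 7 → 8 := by
      intro h S hS
      exact Helper75.RE.cover_of_few hm3 h S hS
    tfae_have 8 → 4 := by
      intro h s ε hs hs' hε
      exact Helper75.RE.renyi_of_cover h hs hs' hε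
    tfae_have 1 → 5 := by
      intro hfd s c hs hs1 hc
      exact Helper17.GH.frequently_pow hm2 hm3
        (Pool.Agent.Helper40.LPA.no_atoms_of_infinite h2 h3 ht hτ hφ' hμ hfd) hs hs1 hc
    tfae_have 5 → 6 := by
      intro h
      refine ⟨1 / 2, by norm_num, fun B => ?_⟩
      have h5 : Tendsto (fun W : ℕ => (W : ℝ) ^ (1 / 2 : ℝ)) atTop atTop :=
        (tendsto_rpow_atTop (by norm_num)).comp tendsto_natCast_atTop_atTop
      obtain ⟨W, hW1, hW2⟩ := ((h (1 / 2) (1 / 2) (by norm_num) (by norm_num)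
        (by norm_num)).and_eventually (h5.eventually_gt_atTop B)).exists
      exact ⟨W, hW2.trans hW1⟩
    tfae_have 4 → 6 := by
      intro h
      refine ⟨1 / 6, by norm_num, fun B => ?_⟩
      have h5 : Tendsto (fun W : ℕ => (2 : ℝ) ^ ((1 / 8 : ℝ) * W)) atTop atTop := by
        have h6 : (fun W : ℕ => (2 : ℝ) ^ ((1 / 8 : ℝ) * W)) =
            fun W : ℕ => ((2 : ℝ) ^ (1 / 8 : ℝ)) ^ W := by
          funext W
          rw [Real.rpow_mul (by norm_num), Real.rpow_natCast]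
        rw [h6]
        exact tendsto_pow_atTop_atTop_of_one_lt (Real.one_lt_rpow (by norm_num) (by norm_num))
      obtain ⟨W, hW1, hW2⟩ := ((h (1 / 6) (1 / 8) (by norm_num) (by norm_num)
        (by norm_num)).and_eventually (h5.eventually_gt_atTop B)).exists
      exact ⟨W, hW2.trans hW1⟩
    tfae_have 6 → 1 := by
      rintro ⟨s, hs, h⟩ hfd
      obtain ⟨Z, hZ, hZμ⟩ := Pool.Agent.Helper40.LPA.finite_of_fd ht hτ hμ hfd
      have hae : ∀ᵐ x ∂μ, x ∈ hZ.toFinset := by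
        rw [ae_iff]
        have e : {a | a ∉ hZ.toFinset} = Zᶜ := by
          ext x
          simp
        rw [e]
        exact hZμ
      obtain ⟨W, hW⟩ := h hZ.toFinset.card
      exact absurd (Helper75.RE.powSum_le_of_finite hZ.toFinset hae hs W) (not_le.2 hW)
    tfae_finish
  · intro φ hφ μ hμ c hc
    have hp := hμ.1
    exact Helper35.LIM.lim h2 h3 ht hτ hφ hμ.2 hc
  · intro φ hφ μ hμ k c hk hc
    obtain ⟨hm2, hm3⟩ := hinv φ hφ μ hμ
    have hp := hμ.1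
    exact (Helper17.GH.dio hm2 hm3
      (Pool.Agent.Helper40.TMA.erg_of_extreme h2 h3 ht hτ hφ hμ.2) hk hc).symm
  · intro s ε hs hs' hε W₀
    obtain ⟨c, hc, h⟩ := Helper75.RE.renyi_large hs hs' hε W₀
    obtain ⟨D, hD⟩ := hsmall c hc
    refine ⟨D, fun φ hφ hdim μ hμ => ?_⟩
    obtain ⟨hm2, hm3⟩ := hinv φ hφ μ hμ
    exact h μ hμ.1 hm2 hm3 (hD φ hφ hdim μ hμ)
  · intro D φ hφ hdim μ hμ s W hs
    have hp := hμ.1
    obtain ⟨c, hc, hrec⟩ := Helper58.LU.recurrence_of_rank hτ ht hdim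
    obtain ⟨Z, hZ, hae⟩ := Helper58.LU.support_card μ D c hc (fun m => by
      rw [← hrec m]
      refine Finset.sum_congr rfl fun j _ => ?_
      congr 1
      exact hμ.2 _)
    refine (Helper75.RE.powSum_le_of_finite Z hae hs W).trans ?_
    exact_mod_cast hZ
  · intro φ hφ μ hμ Q K hK
    obtain ⟨hm2, hm3⟩ := hinv φ hφ μ hμ
    have hp := hμ.1
    exact Pool.Agent.Helper61.RH.ent_le hm2 hm3 Q K hK
  · intro φ hφ μ hμ s a ε hs hs1 ha hε hunb
    obtain ⟨hm2, hm3⟩ := hinv φ hφ μ hμ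
    have hp := hμ.1
    exact Pool.Agent.Helper61.RH.growth' hm2 hm3 hs hs1 ha hε hunb
  · intro φ hφ μ hμ a x r hx
    obtain ⟨hm2, hm3⟩ := hinv φ hφ μ hμ
    have hp := hμ.1
    exact Helper17.GH.ball_le hm2 hm3 a x r hx
  · intro j₀
    obtain ⟨c, hc, h⟩ := Helper17.GH.gap (j₀ + 3) (by omega)
    obtain ⟨D, hD⟩ := hsmall c hc
    refine ⟨D, fun φ hφ hdim μ hμ => ?_⟩
    obtain ⟨hm2, hm3⟩ := hinv φ hφ μ hμ
    have hp := hμ.1
    obtain ⟨J, hJ⟩ := h μ hμ.1 hm2 hm3 (hD φ hφ hdim μ hμ)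
    refine ⟨J, lt_of_lt_of_le hJ ?_⟩
    refine Finset.sum_le_sum_of_subset_of_nonneg ?_ fun j _ _ =>
      div_nonneg (Finset.sum_nonneg fun i _ =>
        Real.negMulLog_nonneg measureReal_nonneg measureReal_le_one) (by positivity)
    intro j hj
    rw [Finset.mem_Ico] at hj ⊢
    omega
  · intro q₀
    obtain ⟨D, hD⟩ := hsmall ((3 / 4) / 3 ^ (2 ^ (q₀ + 3))) (by positivity)
    refine ⟨D, fun φ hφ hdim μ hμ => ?_⟩
    obtain ⟨hm2, hm3⟩ := hinv φ hφ μ hμ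
    have hp := hμ.1
    obtain ⟨Q, hQ⟩ := Helper75.RE.few_large hm2 hm3 (q₀ + 3) (by omega) (hD φ hφ hdim μ hμ)
    refine ⟨Q, lt_of_lt_of_le hQ ?_⟩
    refine Finset.sum_le_sum_of_subset_of_nonneg ?_ fun q _ _ => by positivity
    intro q hq
    rw [Finset.mem_Ico] at hq ⊢
    omega

end Helper75.REFull
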