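import Mathlib

/-!
# Entropies larger than `log K / (log log K) ^ 2` at infinitely many `K`
-/

set_option autoImplicit false
open Filter

namespace Helper75.RE

theorem logFreq {H : ℕ → ℝ} (h0 : ∀ K, 0 ≤ H K)
    (h : ¬ Summable fun j : ℕ => H (2 ^ (2 ^ j)) / 2 ^ j) :
    ∃ᶠ K : ℕ in atTop, Real.log K / (Real.log (Real.log K)) ^ 2 < H K := by
  intro hcon
  apply h
  have hK : Tendsto (fun j : ℕ => 2 ^ (2 ^ j)) atTop (atTop : Filter ℕ) :=
    (tendsto_pow_atTop_atTop_of_one_lt (by norm_num)).comp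
      (tendsto_pow_atTop_atTop_of_one_lt (by norm_num))
  have hev := hK.eventually hcon
  have hs : Summable fun j : ℕ => 4 * (1 / (j : ℝ) ^ 2) :=
    (Real.summable_one_div_nat_pow.2 (by norm_num)).mul_left 4
  refine Summable.of_norm_bounded_eventually_nat hs ?_
  filter_upwards [hev, eventually_ge_atTop 3] with j hj hj3
  rw [not_lt] at hj
  have hl2 : 0.6931471803 < Real.log 2 := Real.log_two_gt_d9
  have hl2' : Real.log 2 < 0.6931471808 := Real.log_two_lt_d9
  have e1 : Real.log (((2 : ℕ) ^ (2 ^ j) : ℕ) : ℝ) = 2 ^ j * Real.log 2 := by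
    push_cast
    rw [Real.log_pow]
    push_cast
    ring
  have e2 : Real.log (2 ^ j * Real.log 2) = j * Real.log 2 + Real.log (Real.log 2) := by
    rw [Real.log_mul (by positivity) (by positivity), Real.log_pow]
  rw [e1, e2] at hj
  have hll : 1 - (Real.log 2)⁻¹ ≤ Real.log (Real.log 2) :=
    Real.one_sub_inv_le_log_of_pos (by linarith)
  have hinv : (Real.log 2)⁻¹ ≤ 1.45 := by
    rw [inv_le_comm₀ (by linarith) (by norm_num)]
    norm_num
    linarith
  have hj' : (3 : ℝ) ≤ j := by exact_mod_cast hj3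
  have hb : (j : ℝ) / 2 ≤ j * Real.log 2 + Real.log (Real.log 2) := by nlinarith
  have hpos : (0 : ℝ) < (j : ℝ) / 2 := by linarith
  have h2j : (0 : ℝ) < 2 ^ j := by positivity
  rw [Real.norm_eq_abs, abs_of_nonneg (div_nonneg (h0 _) h2j.le), div_le_iff₀ h2j]
  refine hj.trans ?_
  have hsq : ((j : ℝ) / 2) ^ 2 ≤ (j * Real.log 2 + Real.log (Real.log 2)) ^ 2 := by gcongr
  calc 2 ^ j * Real.log 2 / (j * Real.log 2 + Real.log (Real.log 2)) ^ 2
      ≤ 2 ^ j * Real.log 2 / ((j : ℝ) / 2) ^ 2 := by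
        gcongr
    _ ≤ 2 ^ j * 1 / ((j : ℝ) / 2) ^ 2 := by
        gcongr
        linarith
    _ = 4 * (1 / (j : ℝ) ^ 2) * 2 ^ j := by
        field_simp
        norm_num

theorem log_div_tendsto :
    Tendsto (fun K : ℕ => Real.log K / (Real.log (Real.log K)) ^ 2) atTop atTop := by
  have h1 : Tendsto (fun x : ℝ => x / (Real.log x) ^ 2) atTop atTop := by
    have h2 : Tendsto (fun x : ℝ => x ^ (1 / 2 : ℝ) / 16) atTop atTop :=
      (tendsto_rpow_atTop (by norm_num)).atTop_div_const (by norm_num)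
    refine tendsto_atTop_mono' _ ?_ h2
    filter_upwards [eventually_gt_atTop (Real.exp 1)] with x hx
    have hx0 : 0 < x := (Real.exp_pos 1).trans hx
    have hl : 1 < Real.log x := by rwa [Real.lt_log_iff_exp_lt hx0]
    have hle : Real.log x ≤ x ^ (1 / 4 : ℝ) / (1 / 4) :=
      Real.log_le_rpow_div hx0.le (by norm_num)
    have hsq : (Real.log x) ^ 2 ≤ 16 * x ^ (1 / 2 : ℝ) := by
      calc (Real.log x) ^ 2 ≤ (x ^ (1 / 4 : ℝ) / (1 / 4)) ^ 2 := by gcongr
        _ = 16 * (x ^ (1 / 4 : ℝ)) ^ (2 : ℕ) := by ring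
        _ = 16 * x ^ (1 / 2 : ℝ) := by
          rw [← Real.rpow_natCast, ← Real.rpow_mul hx0.le]
          norm_num
    have hh : x ^ (1 / 2 : ℝ) * x ^ (1 / 2 : ℝ) = x := by
      rw [← Real.rpow_add hx0]
      norm_num
    rw [div_le_div_iff₀ (by norm_num) (by positivity)]
    have hp : 0 ≤ x ^ (1 / 2 : ℝ) := by positivity
    calc x ^ (1 / 2 : ℝ) * (Real.log x) ^ 2 ≤ x ^ (1 / 2 : ℝ) * (16 * x ^ (1 / 2 : ℝ)) := by
          gcongr
      _ = x * 16 := by linear_combination 16 * hh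
  exact (h1.comp Real.tendsto_log_atTop).comp tendsto_natCast_atTop_atTop

end Helper75.RE
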