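import Mathlib
import Pool.Agent.Helper75.RE.Full
import Pool.Agent.Helper75.RE.LogFreq

/-!
# Renyi entropy of extreme traces

`G` is the group generated by `x ↦ 2x`, `x ↦ 3x`, `x ↦ x + 1`, `τ` is the translation by one.
-/

set_option autoImplicit false
open scoped ComplexOrder
open Filter MeasureTheory

namespace Helper75.RECrisp

/-- extreme normalised positive definite class functions -/
def IsExtremeTrace (G : Subgroup (Equiv.Perm ℚ)) (φ : G → ℂ) : Prop :=
  φ ∈ Set.extremePoints ℝ {ψ : G → ℂ | ψ 1 = 1 ∧ (∀ g h : G, ψ (h * g * h⁻¹) = ψ g) ∧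
    ∀ (s : Finset G) (c : G → ℂ), 0 ≤ ∑ i ∈ s, ∑ j ∈ s, star (c j) * c i * ψ (j⁻¹ * i)}

/-- the span of the translates of `φ` by the translations in `G`; its dimension is the conditional
dimension of `φ` -/
def condSpan (G : Subgroup (Equiv.Perm ℚ)) (φ : G → ℂ) : Submodule ℂ (G → ℂ) :=
  Submodule.span ℂ {F : G → ℂ | ∃ n : G,
    (∃ r : ℚ, ∀ x : ℚ, (n : Equiv.Perm ℚ) x = x + r) ∧ F = fun x => φ (n * x)}

/-- `μ` is the probability measure on the circle with Fourier coefficients `φ (τ ^ m)` -/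
def IsMeasureOf {G : Subgroup (Equiv.Perm ℚ)} (τ : G) (φ : G → ℂ)
    (μ : Measure (AddCircle (1 : ℝ))) : Prop :=
  IsProbabilityMeasure μ ∧ ∀ m : ℤ, ∫ x, (fourier m x : ℂ) ∂μ = φ (τ ^ m)

/-- the arc `[i / 2 ^ W, (i + 1) / 2 ^ W)` of the circle -/
def arc (W i : ℕ) : Set (AddCircle (1 : ℝ)) :=
  (fun t : ℝ => (t : AddCircle (1 : ℝ))) '' Set.Ico ((i : ℝ) / 2 ^ W) ((i + 1) / 2 ^ W)

/-- the sum of the `s`-th powers of the masses of the `2 ^ W` dyadic arcs of length `2 ^ (-W)` -/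
noncomputable def powSum (μ : Measure (AddCircle (1 : ℝ))) (s : ℝ) (W : ℕ) : ℝ :=
  ∑ i ∈ Finset.range (2 ^ W), μ.real (arc W i) ^ s

/-- the Shannon entropy of the partition of the circle into the `2 ^ K` dyadic arcs of length
`2 ^ (-K)` -/
noncomputable def shannon (μ : Measure (AddCircle (1 : ℝ))) (K : ℕ) : ℝ :=
  ∑ i ∈ Finset.range (2 ^ K), Real.negMulLog (μ.real (arc K i))

/-- **Extreme traces of infinite conditional dimension have positive Renyi entropy of every order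
`s < 1 / 3`.**  Every extreme trace has a measure on the circle; the trace has infinite conditional
dimension iff for `0 < s < 1 / 3`, `c < (1 - 3 s) / 2` the sums of the `s`-th powers exceed
`2 ^ (c W)` for infinitely many `W`, iff the Shannon entropies exceed `log K / (log log K) ^ 2` for
infinitely many `K`, iff the sums of the `s`-th powers are unbounded for some `s > 0`, iff the
Shannon entropies are unbounded.  For `c < 1` they are at least `c log K` for all large `K`, unless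
the trace is a pointwise limit of extreme traces of finite conditional dimension. -/
theorem result :
  ∀ (s2 s3 t : Equiv.Perm ℚ), (∀ x : ℚ, s2 x = 2 * x) → (∀ x : ℚ, s3 x = 3 * x) →
  (∀ x : ℚ, t x = x + 1) →
  ∀ (G : Subgroup (Equiv.Perm ℚ)), G = Subgroup.closure {s2, s3, t} →
  ∀ τ : G, (τ : Equiv.Perm ℚ) = t →
  ∀ φ : G → ℂ, IsExtremeTrace G φ →
    ∃ μ : Measure (AddCircle (1 : ℝ)), IsMeasureOf τ φ μ ∧
      List.TFAE [
        ¬ FiniteDimensional ℂ (condSpan G φ),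
        ∀ s c : ℝ, 0 < s → s < 1 / 3 → c < (1 - 3 * s) / 2 →
          ∃ᶠ W : ℕ in atTop, (2 : ℝ) ^ (c * W) < powSum μ s W,
        ∃ᶠ K : ℕ in atTop, Real.log K / (Real.log (Real.log K)) ^ 2 < shannon μ K,
        ∃ s : ℝ, 0 < s ∧ ∀ B : ℝ, ∃ W : ℕ, B < powSum μ s W,
        ∀ B : ℝ, ∃ K : ℕ, B < shannon μ K] ∧
      ∀ c : ℝ, c < 1 →
        (∀ᶠ K : ℕ in atTop, c * Real.log K ≤ shannon μ K) ∨
        φ ∈ closure {ψ : G → ℂ | IsExtremeTrace G ψ ∧ FiniteDimensional ℂ (condSpan G ψ)} := by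
  intro s2 s3 t h2 h3 ht G hG τ hτ φ hφ
  obtain ⟨hT, hL, -⟩ := Helper75.REFull.result s2 s3 t h2 h3 ht G hG τ hτ
  obtain ⟨μ, hμ, h⟩ := hT φ hφ
  refine ⟨μ, hμ, ?_, fun c hc => hL φ hφ μ hμ c hc⟩
  have hp := hμ.1
  have e12 := h.out 0 3
  have e15 := h.out 0 1
  have e13 := h.out 0 2
  have e14 := h.out 0 5
  tfae_have 1 ↔ 2 := e12
  tfae_have 1 ↔ 4 := e14
  tfae_have 1 ↔ 5 := e15
  tfae_have 1 → 3 := by
    intro hfd
    refine Helper75.RE.logFreq (fun K => ?_) (e13.1 hfd)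
    exact Finset.sum_nonneg fun i _ => Real.negMulLog_nonneg measureReal_nonneg measureReal_le_one
  tfae_have 3 → 5 := by
    intro hf B
    obtain ⟨K, hK1, hK2⟩ := (hf.and_eventually
      (Helper75.RE.log_div_tendsto.eventually_gt_atTop B)).exists
    exact ⟨K, hK2.trans hK1⟩
  tfae_finish

end Helper75.RECrisp
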